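import Mathlib
import Pool.Agent.H8.Iso.Defs
import Pool.Agent.H8.Iso.Final

set_option autoImplicit false

namespace Pool.Agent.Results.MP_ba0d78_gt.NotG

open Pool.Agent.H8.Iso

theorem result : ∃ (X : Type) (_ : TopologicalSpace X), T35Space X ∧
    Isocompact (Cp X) ∧ ¬ GSpace (Cp X) :=
  main_thm

end Pool.Agent.Results.MP_ba0d78_gt.NotG
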